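import Pool.Agent.W2helper59.CW.Stm

/-!
Project CW, piece BET: the truncated Beta integral.
-/

set_option autoImplicit false

namespace Pool.Agent.W2helper6.CW

open Finset Pool.Agent.W2helper59.CW

theorem beta_int (de a : ℕ) (y p q : ℝ) :
    IntervalIntegrable (fun v : ℝ => v ^ de * (y - v) ^ a) MeasureTheory.volume p q :=
  Continuous.intervalIntegrable (by fun_prop) _ _

theorem beta_step (de a : ℕ) (y : ℝ) :
    ((a : ℝ) + 1) * ∫ v in (0 : ℝ)..y, v ^ (de + 1) * (y - v) ^ a =
      ((de : ℝ) + 1) * ∫ v in (0 : ℝ)..y, v ^ de * (y - v) ^ (a + 1) := by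
  have h : ∀ v ∈ Set.uIcc 0 y, HasDerivAt (fun v : ℝ => v ^ (de + 1) * (y - v) ^ (a + 1))
      (((de : ℝ) + 1) * (v ^ de * (y - v) ^ (a + 1)) -
        ((a : ℝ) + 1) * (v ^ (de + 1) * (y - v) ^ a)) v := by
    intro v _
    have h1 : HasDerivAt (fun v : ℝ => v ^ (de + 1)) (((de : ℝ) + 1) * v ^ de) v := by
      have := hasDerivAt_pow (de + 1) v
      simpa using this
    have h2 : HasDerivAt (fun v : ℝ => (y - v) ^ (a + 1)) (((a : ℝ) + 1) * (y - v) ^ a * (-1)) v := by
      have h3 : HasDerivAt (fun v : ℝ => y - v) (-1) v := by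
        simpa using (hasDerivAt_id v).const_sub y
      have := h3.fun_pow (a + 1)
      simpa using this
    have h4 := h1.fun_mul h2
    refine h4.congr_deriv ?_
    ring
  have e := intervalIntegral.integral_eq_sub_of_hasDerivAt h
    (((beta_int de (a + 1) y 0 y).const_mul _).sub ((beta_int (de + 1) a y 0 y).const_mul _))
  rw [intervalIntegral.integral_sub ((beta_int de (a + 1) y 0 y).const_mul _)
    ((beta_int (de + 1) a y 0 y).const_mul _), intervalIntegral.integral_const_mul,
    intervalIntegral.integral_const_mul] at e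
  have e2 : y ^ (de + 1) * (y - y) ^ (a + 1) - (0 : ℝ) ^ (de + 1) * (y - 0) ^ (a + 1) = 0 := by
    rw [sub_self, zero_pow (by omega), zero_pow (by omega)]
    ring
  rw [e2] at e
  linarith

theorem beta_full (y : ℝ) (de : ℕ) : ∀ a : ℕ, ∫ v in (0 : ℝ)..y, v ^ de * (y - v) ^ a =
    (de.factorial : ℝ) * a.factorial / (a + de + 1).factorial * y ^ (a + de + 1) := by
  induction de with
  | zero =>
    intro a
    have h : ∀ v ∈ Set.uIcc 0 y, HasDerivAt (fun v : ℝ => -(y - v) ^ (a + 1) / ((a : ℝ) + 1))
        (v ^ 0 * (y - v) ^ a) v := by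
      intro v _
      have h3 : HasDerivAt (fun v : ℝ => y - v) (-1) v := by
        simpa using (hasDerivAt_id v).const_sub y
      have h4 := ((h3.fun_pow (a + 1)).fun_neg).div_const ((a : ℝ) + 1)
      have h5 : (a : ℝ) + 1 ≠ 0 := by positivity
      refine h4.congr_deriv ?_
      rw [pow_zero, one_mul, Nat.add_sub_cancel, div_eq_iff h5]
      push_cast
      ring
    rw [intervalIntegral.integral_eq_sub_of_hasDerivAt h (beta_int 0 a y 0 y)]
    have h1 : (a : ℝ) + 1 ≠ 0 := by positivity
    have h2 : (a.factorial : ℝ) ≠ 0 := by positivity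
    rw [sub_self, zero_pow (by omega), sub_zero, Nat.add_zero, Nat.factorial_succ]
    push_cast
    field_simp
    simp
  | succ de ih =>
    intro a
    have h1 := beta_step de a y
    rw [ih (a + 1)] at h1
    have h2 : (a : ℝ) + 1 ≠ 0 := by positivity
    have e1 : a + 1 + de + 1 = a + (de + 1) + 1 := by ring
    rw [e1] at h1
    have h3 : ∫ v in (0 : ℝ)..y, v ^ (de + 1) * (y - v) ^ a =
        (((de : ℝ) + 1) * ((de.factorial : ℝ) * (a + 1).factorial / (a + (de + 1) + 1).factorial *
          y ^ (a + (de + 1) + 1))) / ((a : ℝ) + 1) := by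
      rw [eq_div_iff h2, mul_comm, h1]
    rw [h3, Nat.factorial_succ a, Nat.factorial_succ de]
    push_cast
    have h4 : ((a + (de + 1) + 1).factorial : ℝ) ≠ 0 := by positivity
    field_simp

theorem p_bet : P_BET := by
  intro de theta Bm rho hth hBm hr hr1
  -- the ratio of factorials
  have hfac : ∀ a : ℕ, ((a + de + 1).factorial : ℝ) ≤ (a.factorial : ℝ) * ((a + de + 1 : ℕ) : ℝ) ^ (de + 1) := by
    intro a
    have h := Nat.ascFactorial_le_pow_add a (de + 1)
    have h2 := Nat.factorial_mul_ascFactorial a (de + 1)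
    have h3 : (a + de + 1).factorial ≤ a.factorial * (a + de + 1) ^ (de + 1) := by
      calc (a + de + 1).factorial = a.factorial * (a + 1).ascFactorial (de + 1) := by
            rw [h2]; rfl
        _ ≤ a.factorial * (a + de + 1) ^ (de + 1) := Nat.mul_le_mul_left _ h
    exact_mod_cast h3
  by_cases hB : Bm ≤ theta
  · refine ⟨0, fun a _ y hy hyB => ?_⟩
    rw [min_eq_right (hyB.trans hB), beta_full]
    have : 0 ≤ (de.factorial : ℝ) * a.factorial / (a + de + 1).factorial * y ^ (a + de + 1) := by
      positivity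
    nlinarith
  push Not at hB
  set q : ℝ := 1 - theta / Bm with hq
  have hq1 : q < 1 := by
    have : 0 < theta / Bm := by positivity
    linarith
  have hq0 : 0 < q := by
    have : theta / Bm < 1 := (div_lt_one hBm).mpr hB
    linarith
  have htend := tendsto_pow_const_mul_const_pow_of_abs_lt_one (de + 1) (r := q)
    (by rw [abs_of_pos hq0]; exact hq1)
  have hpos : 0 < q ^ (de + 1) * ((1 - rho) * de.factorial) := by
    have : 0 < 1 - rho := by linarith
    positivity
  obtain ⟨N, hN⟩ := Filter.eventually_atTop.mp (htend.eventually (gt_mem_nhds hpos))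
  refine ⟨N, fun a ha y hy hyB => ?_⟩
  have hfull := beta_full y de a
  have hn0 : 0 ≤ (de.factorial : ℝ) * a.factorial / (a + de + 1).factorial * y ^ (a + de + 1) := by
    positivity
  by_cases hyt : y ≤ theta
  · rw [min_eq_right hyt, hfull]
    nlinarith
  push Not at hyt
  rw [min_eq_left hyt.le]
  have hsplit := intervalIntegral.integral_add_adjacent_intervals (beta_int de a y 0 theta)
    (beta_int de a y theta y)
  rw [hfull] at hsplit
  have hy0 : 0 < y := hth.trans hyt
  -- the tail
  have htail : ∫ v in theta..y, v ^ de * (y - v) ^ a ≤ y ^ (a + de + 1) * q ^ a := by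
    have h1 : ∀ v ∈ Set.Icc theta y, v ^ de * (y - v) ^ a ≤ y ^ de * (y * q) ^ a := by
      intro v hv
      have hv0 : 0 ≤ v := hth.le.trans hv.1
      have h2 : y - v ≤ y * q := by
        have h3 : theta / Bm * y ≤ theta := by
          rw [div_mul_eq_mul_div, div_le_iff₀ hBm]
          exact mul_le_mul_of_nonneg_left hyB hth.le
        have h4 : y * q = y - theta / Bm * y := by rw [hq]; ring
        rw [h4]
        linarith [hv.1]
      have h5 : 0 ≤ y - v := by linarith [hv.2]
      exact mul_le_mul (pow_le_pow_left₀ hv0 hv.2 _) (pow_le_pow_left₀ h5 h2 _) (pow_nonneg h5 _)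
        (pow_nonneg hy _)
    have h6 : ∫ v in theta..y, v ^ de * (y - v) ^ a ≤ ∫ v in theta..y, y ^ de * (y * q) ^ a :=
      intervalIntegral.integral_mono_on hyt.le (beta_int de a y theta y)
        intervalIntegrable_const h1
    rw [intervalIntegral.integral_const, smul_eq_mul] at h6
    have h7 : (y - theta) * (y ^ de * (y * q) ^ a) ≤ y * (y ^ de * (y * q) ^ a) :=
      mul_le_mul_of_nonneg_right (by linarith) (by positivity)
    calc _ ≤ _ := h6
      _ ≤ _ := h7
      _ = y ^ (a + de + 1) * q ^ a := by rw [mul_pow]; ring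
  -- the comparison
  have hcmp : q ^ a ≤ (1 - rho) * ((de.factorial : ℝ) * a.factorial / (a + de + 1).factorial) := by
    have h1 := hN (a + de + 1) (by omega)
    have h2 : q ^ (a + de + 1) = q ^ a * q ^ (de + 1) := by rw [← pow_add]; congr 1
    rw [h2] at h1
    have h3 : ((a + de + 1 : ℕ) : ℝ) ^ (de + 1) * q ^ a < (1 - rho) * de.factorial := by
      have h4 : 0 < q ^ (de + 1) := by positivity
      have h5 : q ^ (de + 1) * (((a + de + 1 : ℕ) : ℝ) ^ (de + 1) * q ^ a) <
          q ^ (de + 1) * ((1 - rho) * de.factorial) := by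
        calc _ = ((a + de + 1 : ℕ) : ℝ) ^ (de + 1) * (q ^ a * q ^ (de + 1)) := by ring
          _ < _ := h1
      exact lt_of_mul_lt_mul_left h5 h4.le
    have hF : (0 : ℝ) < (a + de + 1).factorial := by positivity
    have hA : (0 : ℝ) < a.factorial := by positivity
    rw [mul_div_assoc', le_div_iff₀ hF]
    calc q ^ a * ((a + de + 1).factorial : ℝ) ≤
        q ^ a * ((a.factorial : ℝ) * ((a + de + 1 : ℕ) : ℝ) ^ (de + 1)) :=
          mul_le_mul_of_nonneg_left (hfac a) (by positivity)
      _ = a.factorial * (((a + de + 1 : ℕ) : ℝ) ^ (de + 1) * q ^ a) := by ring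
      _ ≤ a.factorial * ((1 - rho) * de.factorial) := mul_le_mul_of_nonneg_left h3.le hA.le
      _ = _ := by ring
  have hfin : y ^ (a + de + 1) * q ^ a ≤ y ^ (a + de + 1) *
      ((1 - rho) * ((de.factorial : ℝ) * a.factorial / (a + de + 1).factorial)) :=
    mul_le_mul_of_nonneg_left hcmp (by positivity)
  have e3 : y ^ (a + de + 1) *
      ((1 - rho) * ((de.factorial : ℝ) * a.factorial / (a + de + 1).factorial)) =
      (de.factorial : ℝ) * a.factorial / (a + de + 1).factorial * y ^ (a + de + 1) -
      rho * ((de.factorial : ℝ) * a.factorial / (a + de + 1).factorial) * y ^ (a + de + 1) := by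
    ring
  linarith

end Pool.Agent.W2helper6.CW
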