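import Pool.Agent.W2helper59.CW.Stm

/-!
Project CW, piece DET: the recursion determines `D`.
-/

set_option autoImplicit false

namespace Pool.Agent.W2helper6.CW

open Finset Pool.Agent.W2helper59.CW

theorem p_det : P_DET := by
  intro W D₁ D₂ h00 h0 h1 h2 n
  induction n using Nat.strong_induction_on with
  | _ n ih =>
    intro k hn
    have key : ∀ D : ℕ → ℕ → ℝ,
        ∑ c ∈ Finset.Icc 1 n, ∑ j ∈ Finset.range (k + 1), D c j * W (n - c) (k - j) =
          ∑ c ∈ Finset.Icc 1 (n - 1), ∑ j ∈ Finset.range (k + 1), D c j * W (n - c) (k - j)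
            + D n k := by
      intro D
      obtain ⟨m, rfl⟩ : ∃ m, n = m + 1 := ⟨n - 1, by omega⟩
      rw [Finset.sum_Icc_succ_top (by omega : 1 ≤ m + 1), Nat.add_sub_cancel]
      congr 1
      rw [Finset.sum_range_succ, Nat.sub_self, Nat.sub_self, h00, mul_one,
        Finset.sum_eq_zero, zero_add]
      intro j hj
      have hj' := Finset.mem_range.mp hj
      have e : k - j = (k - j - 1) + 1 := by omega
      rw [e, h0, mul_zero]
    have e1 := h1 n k hn
    have e2 := h2 n k hn
    rw [key] at e1 e2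
    have e3 : ∑ c ∈ Finset.Icc 1 (n - 1), ∑ j ∈ Finset.range (k + 1), D₁ c j * W (n - c) (k - j) =
        ∑ c ∈ Finset.Icc 1 (n - 1), ∑ j ∈ Finset.range (k + 1), D₂ c j * W (n - c) (k - j) := by
      refine Finset.sum_congr rfl fun c hc => Finset.sum_congr rfl fun j _ => ?_
      have hc' := Finset.mem_Icc.mp hc
      rw [ih c (by omega) j hc'.1]
    linarith

end Pool.Agent.W2helper6.CW
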